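import Pool.Agent.Work.MP_dc6514_lc.R.GSub

/-!
# Free variables (block G): `p.fN`, `p.fS` bound the free variables of `p`.
-/

namespace Pool.Agent.RT

/-- All variables of `t` are `< t.fN`. -/
def Tm.fN : Tm → ℕ
  | .var i => i + 1
  | .zero => 0
  | .one => 0
  | .add s t => max s.fN t.fN
  | .mul s t => max s.fN t.fN

/-- All free number variables of `p` are `< p.fN`. -/
def Fm.fN : Fm → ℕ
  | .eq s t => max s.fN t.fN
  | .lt s t => max s.fN t.fN
  | .mem t _ => t.fN
  | .bot => 0
  | .imp p q => max p.fN q.fN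
  | .allN p => p.fN - 1
  | .allS p => p.fN

/-- All free set variables of `p` are `< p.fS`. -/
def Fm.fS : Fm → ℕ
  | .eq _ _ => 0
  | .lt _ _ => 0
  | .mem _ X => X + 1
  | .bot => 0
  | .imp p q => max p.fS q.fS
  | .allN p => p.fS
  | .allS p => p.fS - 1

theorem Tm.sub_congr (t : Tm) {σ σ' : ℕ → Tm} (h : ∀ i, i < t.fN → σ i = σ' i) :
    t.sub σ = t.sub σ' := by
  induction t with
  | var i => exact h i (Nat.lt_succ_self i)
  | zero => rfl
  | one => rfl
  | add s t hs ht =>
    simp only [Tm.fN, lt_max_iff] at h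
    simp only [Tm.sub, hs fun i hi => h i (Or.inl hi), ht fun i hi => h i (Or.inr hi)]
  | mul s t hs ht =>
    simp only [Tm.fN, lt_max_iff] at h
    simp only [Tm.sub, hs fun i hi => h i (Or.inl hi), ht fun i hi => h i (Or.inr hi)]

theorem upT_congr {σ σ' : ℕ → Tm} {n : ℕ} (h : ∀ i, i < n - 1 → σ i = σ' i) :
    ∀ i, i < n → upT σ i = upT σ' i := by
  intro i hi
  cases i with
  | zero => rfl
  | succ i =>
    simp only [upT, cons]
    rw [h i (by omega)]

theorem upS_congr {τ τ' : ℕ → ℕ} {n : ℕ} (h : ∀ i, i < n - 1 → τ i = τ' i) :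
    ∀ i, i < n → upS τ i = upS τ' i := by
  intro i hi
  cases i with
  | zero => rfl
  | succ i =>
    simp only [upS, cons]
    rw [h i (by omega)]

/-- A substitution only depends on its values at the free variables. -/
theorem Fm.sub_congr (p : Fm) : ∀ {σ σ' : ℕ → Tm} {τ τ' : ℕ → ℕ},
    (∀ i, i < p.fN → σ i = σ' i) → (∀ i, i < p.fS → τ i = τ' i) →
      p.sub σ τ = p.sub σ' τ' := by
  induction p with
  | eq s t =>
    intro σ σ' τ τ' h _
    simp only [Fm.fN, lt_max_iff] at h
    simp only [Fm.sub, Tm.sub_congr s fun i hi => h i (Or.inl hi),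
      Tm.sub_congr t fun i hi => h i (Or.inr hi)]
  | lt s t =>
    intro σ σ' τ τ' h _
    simp only [Fm.fN, lt_max_iff] at h
    simp only [Fm.sub, Tm.sub_congr s fun i hi => h i (Or.inl hi),
      Tm.sub_congr t fun i hi => h i (Or.inr hi)]
  | mem t X =>
    intro σ σ' τ τ' h h'
    simp only [Fm.sub, Tm.sub_congr t h, h' X (Nat.lt_succ_self X)]
  | bot => intro σ σ' τ τ' _ _; rfl
  | imp p q hp hq =>
    intro σ σ' τ τ' h h'
    simp only [Fm.fN, Fm.fS, lt_max_iff] at h h'
    simp only [Fm.sub, hp (fun i hi => h i (Or.inl hi)) fun i hi => h' i (Or.inl hi),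
      hq (fun i hi => h i (Or.inr hi)) fun i hi => h' i (Or.inr hi)]
  | allN p hp =>
    intro σ σ' τ τ' h h'
    simp only [Fm.sub, hp (upT_congr h) h']
  | allS p hp =>
    intro σ σ' τ τ' h h'
    simp only [Fm.sub, hp h (upS_congr h')]

/-- Instance by a fresh number variable, then renamed back: `σ` sends the fresh variable `N` to `x_0`
and every other `x_i` to `x_{i+1}`. -/
def backN (N : ℕ) : ℕ → Tm := fun i => if i = N then .var 0 else .var (i + 1)

def backS (N : ℕ) : ℕ → ℕ := fun i => if i = N then 0 else i + 1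

theorem Fm.sub_backN (p : Fm) {N : ℕ} (h : p.fN ≤ N) : p.sub (backN N) id = p.shN := by
  refine p.sub_congr (fun i hi => ?_) fun _ _ => rfl
  have : i ≠ N := by omega
  simp [backN, this]

theorem Fm.sub_backS (p : Fm) {N : ℕ} (h : p.fS ≤ N) : p.sub .var (backS N) = p.shS := by
  refine p.sub_congr (fun _ _ => rfl) fun i hi => ?_
  have : i ≠ N := by omega
  simp [backS, this]

theorem Fm.instN_backN (p : Fm) {N : ℕ} (h : (Fm.allN p).fN ≤ N) :
    (p.instN (.var N)).sub (backN N) id = p := by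
  unfold Fm.instN
  rw [Fm.sub_sub]
  conv_rhs => rw [← p.sub_var]
  refine p.sub_congr (fun i hi => ?_) fun _ _ => rfl
  cases i with
  | zero => simp [cons, Tm.sub, backN]
  | succ i =>
    have h1 : i + 1 < p.fN := hi
    have h2 : p.fN - 1 ≤ N := h
    have : i ≠ N := by omega
    simp [cons, Tm.sub, backN, this]

theorem Fm.instS_backS (p : Fm) {N : ℕ} (h : (Fm.allS p).fS ≤ N) :
    (p.instS N).sub .var (backS N) = p := by
  unfold Fm.instS
  rw [Fm.sub_sub]
  conv_rhs => rw [← p.sub_var]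
  refine p.sub_congr (fun _ _ => rfl) fun i hi => ?_
  cases i with
  | zero => simp [cons, backS]
  | succ i =>
    have h1 : i + 1 < p.fS := hi
    have h2 : p.fS - 1 ≤ N := h
    have : i ≠ N := by omega
    simp [cons, backS, this]

end Pool.Agent.RT
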