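import Pool.Agent.Work.MP_dc6514_lc.R.GPrf

/-!
# Henkin sets (block G)
-/

namespace Pool.Agent.RT

/-- A maximal consistent set of formulas with witnesses. -/
structure Hen (T : Set Fm) (D : Set Fm) : Prop where
  cl : ∀ (G : List Fm) (q : Fm), (∀ r ∈ G, r ∈ D) → Prf T G q → q ∈ D
  con : Fm.bot ∉ D
  tot : ∀ q : Fm, q ∈ D ∨ q.neg ∈ D
  witN : ∀ q : Fm, (Fm.allN q).neg ∈ D → ∃ N, (q.instN (.var N)).neg ∈ D
  witS : ∀ q : Fm, (Fm.allS q).neg ∈ D → ∃ N, (q.instS N).neg ∈ D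

/-- `q` has been treated in the list `G`. -/
def Done (q : Fm) (G : List Fm) : Prop :=
  q ∈ G ∨ (q.neg ∈ G ∧ (∀ r : Fm, q = .allN r → ∃ N, (r.instN (.var N)).neg ∈ G) ∧
    (∀ r : Fm, q = .allS r → ∃ N, (r.instS N).neg ∈ G))

theorem exists_bd (G : List Fm) : ∃ N, ∀ q ∈ G, q.fN ≤ N ∧ q.fS ≤ N := by
  induction G with
  | nil => exact ⟨0, by simp⟩
  | cons p G ih =>
    obtain ⟨N, hN⟩ := ih
    refine ⟨N + p.fN + p.fS, ?_⟩
    intro q hq
    rcases List.mem_cons.1 hq with rfl | hq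
    · omega
    · have := hN q hq
      omega

theorem step_exists {T : Set Fm} (q : Fm) {G : List Fm} (hG : ¬ Prf T G .bot) :
    ∃ G' : List Fm, G ⊆ G' ∧ ¬ Prf T G' .bot ∧ Done q G' := by
  by_cases h : Prf T (q :: G) .bot
  · have h1 : ¬ Prf T (q.neg :: G) .bot := fun h' => hG (Prf.cut (.raa h') h)
    obtain ⟨N, hN⟩ := exists_bd (q.neg :: G)
    by_cases hq : ∃ r, q = .allN r
    · obtain ⟨r, rfl⟩ := hq
      refine ⟨(r.instN (.var N)).neg :: (Fm.allN r).neg :: G, ?_, ?_, ?_⟩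
      · exact fun x hx => List.mem_cons_of_mem _ (List.mem_cons_of_mem _ hx)
      · intro h'
        have h2 : Prf T ((Fm.allN r).neg :: G) (.allN r) :=
          Prf.witN (fun x hx => (hN x hx).1)
            (by
              have := (hN _ (List.mem_cons_self (a := (Fm.allN r).neg) (l := G))).1
              simpa [Fm.neg, Fm.fN] using this) h'
        exact h1 (.impE (.hyp List.mem_cons_self) h2)
      · refine Or.inr ⟨by simp, ?_, ?_⟩
        · intro r' hr'
          cases hr'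
          exact ⟨N, by simp⟩
        · intro r' hr'
          cases hr'
    · by_cases hq' : ∃ r, q = .allS r
      · obtain ⟨r, rfl⟩ := hq'
        refine ⟨(r.instS N).neg :: (Fm.allS r).neg :: G, ?_, ?_, ?_⟩
        · exact fun x hx => List.mem_cons_of_mem _ (List.mem_cons_of_mem _ hx)
        · intro h'
          have h2 : Prf T ((Fm.allS r).neg :: G) (.allS r) :=
            Prf.witS (fun x hx => (hN x hx).2)
              (by
                have := (hN _ (List.mem_cons_self (a := (Fm.allS r).neg) (l := G))).2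
                simpa [Fm.neg, Fm.fS] using this) h'
          exact h1 (.impE (.hyp List.mem_cons_self) h2)
        · refine Or.inr ⟨by simp, ?_, ?_⟩
          · intro r' hr'
            cases hr'
          · intro r' hr'
            cases hr'
            exact ⟨N, by simp⟩
      · refine ⟨q.neg :: G, List.subset_cons_self _ _, h1, Or.inr ⟨List.mem_cons_self, ?_, ?_⟩⟩
        · intro r hr; exact absurd ⟨r, hr⟩ hq
        · intro r hr; exact absurd ⟨r, hr⟩ hq'
  · exact ⟨q :: G, List.subset_cons_self _ _, h, Or.inl List.mem_cons_self⟩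

theorem exists_Hen {T : Set Fm} {p : Fm} (h : ¬ Prf T [] p) :
    ∃ D : Set Fm, Hen T D ∧ p.neg ∈ D := by
  have : Nonempty Fm := ⟨.bot⟩
  obtain ⟨e, he⟩ := exists_surjective_nat Fm
  have h0 : ¬ Prf T [p.neg] .bot := fun h' => h (.raa h')
  let step : ℕ → {G : List Fm // ¬ Prf T G .bot} → {G : List Fm // ¬ Prf T G .bot} :=
    fun n G => ⟨(step_exists (e n) G.2).choose, (step_exists (e n) G.2).choose_spec.2.1⟩
  let C : ℕ → {G : List Fm // ¬ Prf T G .bot} := fun n => Nat.rec ⟨[p.neg], h0⟩ step n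
  have hC0 : (C 0).1 = [p.neg] := rfl
  have hCs : ∀ n, (C n).1 ⊆ (C (n + 1)).1 := fun n => (step_exists (e n) (C n).2).choose_spec.1
  have hCd : ∀ n, Done (e n) (C (n + 1)).1 := fun n =>
    (step_exists (e n) (C n).2).choose_spec.2.2
  have hmono : ∀ n m, n ≤ m → (C n).1 ⊆ (C m).1 := by
    intro n m hnm
    induction hnm with
    | refl => exact List.Subset.refl _
    | step _ ih => exact List.Subset.trans ih (hCs _)
  have hfin : ∀ G : List Fm, (∀ r ∈ G, ∃ n, r ∈ (C n).1) → ∃ n, G ⊆ (C n).1 := by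
    intro G
    induction G with
    | nil => intro _; exact ⟨0, by simp⟩
    | cons a G ih =>
      intro hG
      obtain ⟨n, hn⟩ := ih fun r hr => hG r (List.mem_cons_of_mem _ hr)
      obtain ⟨m, hm⟩ := hG a List.mem_cons_self
      refine ⟨max n m, ?_⟩
      intro r hr
      rcases List.mem_cons.1 hr with rfl | hr
      · exact hmono m _ (le_max_right _ _) hm
      · exact hmono n _ (le_max_left _ _) (hn hr)
  have hcon : ∀ q : Fm, ¬ ((∃ n, q ∈ (C n).1) ∧ ∃ n, q.neg ∈ (C n).1) := by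
    rintro q ⟨⟨n, hn⟩, m, hm⟩
    refine (C (max n m)).2 ?_
    exact .impE (.hyp (hmono m _ (le_max_right _ _) hm)) (.hyp (hmono n _ (le_max_left _ _) hn))
  refine ⟨{q | ∃ n, q ∈ (C n).1}, ⟨?_, ?_, ?_, ?_, ?_⟩, ⟨0, by rw [hC0]; simp⟩⟩
  · intro G q hG hq
    obtain ⟨n, hn⟩ := hfin G hG
    obtain ⟨m, rfl⟩ := he q
    rcases hCd m with h1 | ⟨h1, -, -⟩
    · exact ⟨m + 1, h1⟩
    · exfalso
      refine (C (max n (m + 1))).2 ?_
      refine .impE (.hyp (hmono (m + 1) _ (le_max_right _ _) h1)) ?_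
      exact hq.weak (List.Subset.trans hn (hmono n _ (le_max_left _ _)))
  · rintro ⟨n, hn⟩
    exact (C n).2 (.hyp hn)
  · intro q
    obtain ⟨m, rfl⟩ := he q
    rcases hCd m with h1 | ⟨h1, -, -⟩
    · exact Or.inl ⟨m + 1, h1⟩
    · exact Or.inr ⟨m + 1, h1⟩
  · rintro q hq
    obtain ⟨m, hm⟩ := he (.allN q)
    rcases hCd m with h1 | ⟨-, h1, -⟩
    · rw [hm] at h1
      exact absurd ⟨⟨m + 1, h1⟩, hq⟩ (hcon _)
    · obtain ⟨N, hN⟩ := h1 q hm
      exact ⟨N, m + 1, hN⟩
  · rintro q hq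
    obtain ⟨m, hm⟩ := he (.allS q)
    rcases hCd m with h1 | ⟨-, -, h1⟩
    · rw [hm] at h1
      exact absurd ⟨⟨m + 1, h1⟩, hq⟩ (hcon _)
    · obtain ⟨N, hN⟩ := h1 q hm
      exact ⟨N, m + 1, hN⟩

end Pool.Agent.RT
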