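import Pool.Agent.Work.MP_dc6514_lc.R.GSub

/-!
# Semantics of substitution and soundness (block G)
-/

namespace Pool.Agent.RT

theorem Tm.val_sub (A : L2Str) (t : Tm) (σ : ℕ → Tm) (v : ℕ → A.M) :
    (t.sub σ).val A v = t.val A (fun i => (σ i).val A v) := by
  induction t with
  | var i => rfl
  | zero => rfl
  | one => rfl
  | add s t hs ht => simp only [Tm.sub, Tm.val, hs, ht]
  | mul s t hs ht => simp only [Tm.sub, Tm.val, hs, ht]

theorem val_upT (A : L2Str) (σ : ℕ → Tm) (v : ℕ → A.M) (a : A.M) :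
    (fun i => (upT σ i).val A (cons a v)) = cons a (fun i => (σ i).val A v) := by
  funext i
  cases i with
  | zero => rfl
  | succ i =>
    simp only [upT, cons, Tm.val_sub]
    rfl

theorem comp_upS {α : Type*} (τ : ℕ → ℕ) (V : ℕ → α) (X : α) :
    (fun i => cons X V (upS τ i)) = cons X (fun i => V (τ i)) := by
  funext i; cases i <;> rfl

/-- Satisfaction of a substituted formula. -/
theorem Sat_sub (A : L2Str) (p : Fm) : ∀ (σ : ℕ → Tm) (τ : ℕ → ℕ) (v : ℕ → A.M) (V : ℕ → Set A.M),
    Sat A v V (p.sub σ τ) ↔ Sat A (fun i => (σ i).val A v) (fun i => V (τ i)) p := by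
  induction p with
  | eq s t => intro σ τ v V; simp only [Fm.sub, Sat, Tm.val_sub]
  | lt s t => intro σ τ v V; simp only [Fm.sub, Sat, Tm.val_sub]
  | mem t X => intro σ τ v V; simp only [Fm.sub, Sat, Tm.val_sub]
  | bot => intro σ τ v V; exact Iff.rfl
  | imp p q hp hq => intro σ τ v V; simp only [Fm.sub, Sat, hp, hq]
  | allN p hp => intro σ τ v V; simp only [Fm.sub, Sat, hp, val_upT]
  | allS p hp => intro σ τ v V; simp only [Fm.sub, Sat, hp, comp_upS]

theorem Sat_instN (A : L2Str) (p : Fm) (t : Tm) (v : ℕ → A.M) (V : ℕ → Set A.M) :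
    Sat A v V (p.instN t) ↔ Sat A (cons (t.val A v) v) V p := by
  unfold Fm.instN
  rw [Sat_sub, cons_succ_comp (fun s : Tm => s.val A v) t .var]
  rfl

theorem Sat_instS (A : L2Str) (p : Fm) (k : ℕ) (v : ℕ → A.M) (V : ℕ → Set A.M) :
    Sat A v V (p.instS k) ↔ Sat A v (cons (V k) V) p := by
  unfold Fm.instS
  rw [Sat_sub, cons_succ_comp V k id]
  rfl

theorem Sat_shN (A : L2Str) (p : Fm) (v : ℕ → A.M) (V : ℕ → Set A.M) (a : A.M) :
    Sat A (cons a v) V p.shN ↔ Sat A v V p := by
  unfold Fm.shN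
  rw [Sat_sub]
  rfl

theorem Sat_shS (A : L2Str) (p : Fm) (v : ℕ → A.M) (V : ℕ → Set A.M) (X : Set A.M) :
    Sat A v (cons X V) p.shS ↔ Sat A v V p := by
  unfold Fm.shS
  rw [Sat_sub]
  rfl

/-- SOUNDNESS. -/
theorem sound {T : Set Fm} {G : List Fm} {p : Fm} (h : Prf T G p) (A : L2Str)
    (hT : Models A T) : ∀ (v : ℕ → A.M) (V : ℕ → Set A.M), (∀ i, V i ∈ A.S) →
      (∀ q ∈ G, Sat A v V q) → Sat A v V p := by
  induction h with
  | ax σ τ h =>
    intro v V hV _
    rw [Sat_sub]
    exact hT _ h _ _ fun i => hV _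
  | hyp h => intro v V _ hG; exact hG _ h
  | impI _ ih =>
    intro v V hV hG hp
    refine ih v V hV ?_
    intro q hq
    rcases List.mem_cons.1 hq with rfl | hq
    · exact hp
    · exact hG q hq
  | impE _ _ ih ih' => intro v V hV hG; exact ih v V hV hG (ih' v V hV hG)
  | @raa G p _ ih =>
    intro v V hV hG
    by_contra hp
    refine ih v V hV ?_
    intro q hq
    rcases List.mem_cons.1 hq with rfl | hq
    · exact hp
    · exact hG q hq
  | allNI _ ih =>
    intro v V hV hG a
    refine ih (cons a v) V hV ?_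
    intro q hq
    obtain ⟨r, hr, rfl⟩ := List.mem_map.1 hq
    rw [Sat_shN]
    exact hG r hr
  | allNE t _ ih =>
    intro v V hV hG
    rw [Sat_instN]
    exact ih v V hV hG _
  | allSI _ ih =>
    intro v V hV hG X hX
    refine ih v (cons X V) ?_ ?_
    · intro i
      cases i with
      | zero => exact hX
      | succ i => exact hV i
    · intro q hq
      obtain ⟨r, hr, rfl⟩ := List.mem_map.1 hq
      rw [Sat_shS]
      exact hG r hr
  | allSE k _ ih =>
    intro v V hV hG
    rw [Sat_instS]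
    exact ih v V hV hG _ (hV k)
  | refl t => intro v V _ _; exact rfl
  | rew p _ _ ih ih' =>
    intro v V hV hG
    have h1 := ih v V hV hG
    have h2 := ih' v V hV hG
    rw [Sat_instN] at h2 ⊢
    have h3 : _ = _ := h1
    rw [← h3]
    exact h2

end Pool.Agent.RT
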