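import Pool.Agent.Work.MP_dc6514_lc.R.GHenkin
import Pool.Agent.Work.MP_dc6514_lc.R.GSat

/-!
# The term model of a Henkin set, and the completeness theorem (block G)
-/

namespace Pool.Agent.RT

/-- Shift of a term. -/
def Tm.sh (t : Tm) : Tm := t.sub fun i => .var (i + 1)

theorem Tm.sh_inst (s t : Tm) : s.sh.sub (cons t .var) = s := by
  unfold Tm.sh
  rw [Tm.sub_sub]
  exact Tm.sub_var _

namespace Prf

variable {T : Set Fm} {G : List Fm}

theorem eq_symm {s t : Tm} (h : Prf T G (.eq s t)) : Prf T G (.eq t s) := by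
  have h1 := Prf.rew (G := G) (.eq (.var 0) s.sh) h
    (by
      show Prf T G (.eq ((Tm.var 0).sub (cons s .var)) (s.sh.sub (cons s .var)))
      rw [Tm.sh_inst]
      exact .refl s)
  have h2 : Prf T G (.eq ((Tm.var 0).sub (cons t .var)) (s.sh.sub (cons t .var))) := h1
  rw [Tm.sh_inst] at h2
  exact h2

theorem eq_trans {s t u : Tm} (h : Prf T G (.eq s t)) (h' : Prf T G (.eq t u)) :
    Prf T G (.eq s u) := by
  have h1 := Prf.rew (G := G) (.eq s.sh (.var 0)) h'
    (by
      show Prf T G (.eq (s.sh.sub (cons t .var)) ((Tm.var 0).sub (cons t .var)))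
      rw [Tm.sh_inst]
      exact h)
  have h2 : Prf T G (.eq (s.sh.sub (cons u .var)) ((Tm.var 0).sub (cons u .var))) := h1
  rw [Tm.sh_inst] at h2
  exact h2

theorem rel_congr (F : Tm → Tm → Fm)
    (hF : ∀ (a b : Tm) (σ : ℕ → Tm), (F a b).sub σ id = F (a.sub σ) (b.sub σ))
    {s s' t t' : Tm} (h : Prf T G (.eq s s')) (h' : Prf T G (.eq t t')) (h0 : Prf T G (F s t)) :
    Prf T G (F s' t') := by
  have e1 : ∀ a : Tm, (F (.var 0) t.sh).instN a = F a t := by
    intro a
    unfold Fm.instN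
    rw [hF, Tm.sh_inst]
    rfl
  have e2 : ∀ a : Tm, (F s'.sh (.var 0)).instN a = F s' a := by
    intro a
    unfold Fm.instN
    rw [hF, Tm.sh_inst]
    rfl
  have h1 := Prf.rew (G := G) (F (.var 0) t.sh) h (by rw [e1]; exact h0)
  rw [e1] at h1
  have h2 := Prf.rew (G := G) (F s'.sh (.var 0)) h' (by rw [e2]; exact h1)
  rw [e2] at h2
  exact h2

theorem add_congr {s s' t t' : Tm} (h : Prf T G (.eq s s')) (h' : Prf T G (.eq t t')) :
    Prf T G (.eq (.add s t) (.add s' t')) := by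
  have e1 : ∀ a : Tm, (Fm.eq (.add s.sh t.sh) (.add (.var 0) t.sh)).instN a =
      .eq (.add s t) (.add a t) := by
    intro a
    simp only [Fm.instN, Fm.sub, Tm.sub, Tm.sh_inst, cons]
  have e2 : ∀ a : Tm, (Fm.eq (.add s.sh t.sh) (.add s'.sh (.var 0))).instN a =
      .eq (.add s t) (.add s' a) := by
    intro a
    simp only [Fm.instN, Fm.sub, Tm.sub, Tm.sh_inst, cons]
  have h1 := Prf.rew (G := G) _ h (by rw [e1]; exact .refl _)
  rw [e1] at h1
  have h2 := Prf.rew (G := G) _ h' (by rw [e2]; exact h1)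
  rw [e2] at h2
  exact h2

theorem mul_congr {s s' t t' : Tm} (h : Prf T G (.eq s s')) (h' : Prf T G (.eq t t')) :
    Prf T G (.eq (.mul s t) (.mul s' t')) := by
  have e1 : ∀ a : Tm, (Fm.eq (.mul s.sh t.sh) (.mul (.var 0) t.sh)).instN a =
      .eq (.mul s t) (.mul a t) := by
    intro a
    simp only [Fm.instN, Fm.sub, Tm.sub, Tm.sh_inst, cons]
  have e2 : ∀ a : Tm, (Fm.eq (.mul s.sh t.sh) (.mul s'.sh (.var 0))).instN a =
      .eq (.mul s t) (.mul s' a) := by
    intro a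
    simp only [Fm.instN, Fm.sub, Tm.sub, Tm.sh_inst, cons]
  have h1 := Prf.rew (G := G) _ h (by rw [e1]; exact .refl _)
  rw [e1] at h1
  have h2 := Prf.rew (G := G) _ h' (by rw [e2]; exact h1)
  rw [e2] at h2
  exact h2

end Prf

namespace Hen

variable {T D : Set Fm}

theorem mp (h : Hen T D) {p q : Fm} (h1 : p ∈ D) (h2 : Prf T [p] q) : q ∈ D :=
  h.cl [p] q (by simpa using h1) h2

theorem mp2 (h : Hen T D) {p p' q : Fm} (h1 : p ∈ D) (h1' : p' ∈ D) (h2 : Prf T [p, p'] q) :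
    q ∈ D :=
  h.cl [p, p'] q (by simp [h1, h1']) h2

theorem mp3 (h : Hen T D) {p p' p'' q : Fm} (h1 : p ∈ D) (h1' : p' ∈ D) (h1'' : p'' ∈ D)
    (h2 : Prf T [p, p', p''] q) : q ∈ D :=
  h.cl [p, p', p''] q (by simp [h1, h1', h1'']) h2

theorem not_neg (h : Hen T D) {p : Fm} (h1 : p ∈ D) : p.neg ∉ D := fun h2 =>
  h.con (h.mp2 h1 h2 (.impE (p := p) (.hyp (by simp [Fm.neg])) (.hyp (by simp))))

theorem neg_iff (h : Hen T D) {p : Fm} : p.neg ∈ D ↔ p ∉ D :=
  ⟨fun h1 h2 => h.not_neg h2 h1, fun h1 => (h.tot p).resolve_left h1⟩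

theorem imp_iff (h : Hen T D) {p q : Fm} : Fm.imp p q ∈ D ↔ (p ∈ D → q ∈ D) := by
  constructor
  · intro h1 h2
    exact h.mp2 h1 h2 (.impE (p := p) (.hyp (by simp)) (.hyp (by simp)))
  · intro h1
    by_cases hp : p ∈ D
    · exact h.mp (h1 hp) (.impI (.hyp (by simp)))
    · exact h.mp (h.neg_iff.2 hp)
        (.impI (.efq (.impE (p := p) (.hyp (by simp [Fm.neg])) (.hyp (by simp)))))

theorem allN_iff (h : Hen T D) {p : Fm} : Fm.allN p ∈ D ↔ ∀ t : Tm, p.instN t ∈ D := by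
  constructor
  · intro h1 t
    exact h.mp h1 (.allNE t (.hyp (by simp)))
  · intro h1
    by_contra h2
    obtain ⟨N, hN⟩ := h.witN p (h.neg_iff.2 h2)
    exact h.neg_iff.1 hN (h1 _)

theorem allS_iff (h : Hen T D) {p : Fm} : Fm.allS p ∈ D ↔ ∀ k : ℕ, p.instS k ∈ D := by
  constructor
  · intro h1 k
    exact h.mp h1 (.allSE k (.hyp (by simp)))
  · intro h1
    by_contra h2
    obtain ⟨N, hN⟩ := h.witS p (h.neg_iff.2 h2)
    exact h.neg_iff.1 hN (h1 _)

/-- Provable equality of terms. -/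
def setoid (h : Hen T D) : Setoid Tm where
  r s t := Fm.eq s t ∈ D
  iseqv :=
    ⟨fun s => h.cl [] _ (by simp) (.refl s),
      fun {s t} h1 => h.mp h1 (Prf.eq_symm (s := s) (t := t) (.hyp (by simp))),
      fun {s t u} h1 h2 => h.mp2 h1 h2
        (Prf.eq_trans (s := s) (t := t) (u := u) (.hyp (by simp)) (.hyp (by simp)))⟩

theorem lt_congr (h : Hen T D) {s s' t t' : Tm} (h1 : Fm.eq s s' ∈ D) (h2 : Fm.eq t t' ∈ D)
    (h3 : Fm.lt s t ∈ D) : Fm.lt s' t' ∈ D :=
  h.mp3 h1 h2 h3 (Prf.rel_congr (s := s) (s' := s') (t := t) (t' := t') Fm.lt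
    (fun _ _ _ => rfl) (.hyp (by simp)) (.hyp (by simp)) (.hyp (by simp)))

theorem mem_congr (h : Hen T D) {s s' : Tm} (k : ℕ) (h1 : Fm.eq s s' ∈ D)
    (h3 : Fm.mem s k ∈ D) : Fm.mem s' k ∈ D :=
  h.mp2 h1 h3 (Prf.rel_congr (s := s) (s' := s') (t := s) (t' := s) (fun a _ => Fm.mem a k)
    (fun _ _ _ => rfl) (.hyp (by simp)) (.refl _) (.hyp (by simp)))

/-- The term model. -/
def str (h : Hen T D) : L2Str where
  M := Quotient h.setoid
  zero := Quotient.mk h.setoid .zero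
  one := Quotient.mk h.setoid .one
  add := Quotient.map₂ Tm.add fun s s' h1 t t' h2 =>
    h.mp2 h1 h2 (Prf.add_congr (s := s) (s' := s') (t := t) (t' := t') (.hyp (by simp))
      (.hyp (by simp)))
  mul := Quotient.map₂ Tm.mul fun s s' h1 t t' h2 =>
    h.mp2 h1 h2 (Prf.mul_congr (s := s) (s' := s') (t := t) (t' := t') (.hyp (by simp))
      (.hyp (by simp)))
  lt := Quotient.lift₂ (fun s t => Fm.lt s t ∈ D) fun _ _ _ _ h1 h2 =>
    propext ⟨h.lt_congr h1 h2, h.lt_congr (h.setoid.symm h1) (h.setoid.symm h2)⟩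
  S := Set.range fun k : ℕ => {a : Quotient h.setoid | ∃ t : Tm, Quotient.mk h.setoid t = a ∧
    Fm.mem t k ∈ D}
  ne := ⟨_, 0, rfl⟩

/-- The set named by the set variable `k`. -/
def st (h : Hen T D) (k : ℕ) : Set h.str.M :=
  {a : Quotient h.setoid | ∃ t : Tm, Quotient.mk h.setoid t = a ∧ Fm.mem t k ∈ D}

/-- The element named by a term. -/
def el (h : Hen T D) (t : Tm) : h.str.M := Quotient.mk h.setoid t

theorem el_eq (h : Hen T D) {s t : Tm} : h.el s = h.el t ↔ Fm.eq s t ∈ D :=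
  ⟨fun h1 => Quotient.exact h1, fun h1 => Quotient.sound h1⟩

theorem el_surj (h : Hen T D) (a : h.str.M) : ∃ t, h.el t = a := Quotient.exists_rep a

theorem mem_st (h : Hen T D) {t : Tm} {k : ℕ} : h.el t ∈ h.st k ↔ Fm.mem t k ∈ D := by
  constructor
  · rintro ⟨s, hs, hs'⟩
    exact h.mem_congr k (h.el_eq.1 hs) hs'
  · intro h1
    exact ⟨t, rfl, h1⟩

theorem val_el (h : Hen T D) (t : Tm) (σ : ℕ → Tm) :
    t.val h.str (fun i => h.el (σ i)) = h.el (t.sub σ) := by
  induction t with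
  | var i => rfl
  | zero => rfl
  | one => rfl
  | add s t hs ht =>
    simp only [Tm.val, Tm.sub, hs, ht]
    rfl
  | mul s t hs ht =>
    simp only [Tm.val, Tm.sub, hs, ht]
    rfl

/-- Truth lemma. -/
theorem truth (h : Hen T D) (p : Fm) : ∀ (σ : ℕ → Tm) (τ : ℕ → ℕ),
    Sat h.str (fun i => h.el (σ i)) (fun i => h.st (τ i)) p ↔ p.sub σ τ ∈ D := by
  induction p with
  | eq s t =>
    intro σ τ
    simp only [Sat, val_el, Fm.sub]
    exact h.el_eq
  | lt s t =>
    intro σ τ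
    simp only [Sat, val_el, Fm.sub]
    exact Iff.rfl
  | mem t X =>
    intro σ τ
    simp only [Sat, val_el, Fm.sub]
    exact h.mem_st
  | bot =>
    intro σ τ
    exact ⟨fun h1 => h1.elim, fun h1 => h.con h1⟩
  | imp p q hp hq =>
    intro σ τ
    simp only [Sat, Fm.sub, hp, hq]
    exact h.imp_iff.symm
  | allN p hp =>
    intro σ τ
    simp only [Sat, Fm.sub]
    rw [h.allN_iff]
    constructor
    · intro h1 t
      rw [Fm.sub_upT_instN, ← hp]
      have e : (fun i => h.el (cons t σ i)) = cons (h.el t) fun i => h.el (σ i) :=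
        cons_succ_comp h.el t σ
      rw [e]
      exact h1 _
    · intro h1 a
      obtain ⟨t, rfl⟩ := h.el_surj a
      have e : (fun i => h.el (cons t σ i)) = cons (h.el t) fun i => h.el (σ i) :=
        cons_succ_comp h.el t σ
      rw [← e, hp, ← Fm.sub_upT_instN]
      exact h1 t
  | allS p hp =>
    intro σ τ
    simp only [Sat, Fm.sub]
    rw [h.allS_iff]
    constructor
    · intro h1 k
      rw [Fm.sub_upS_instS, ← hp]
      have e : (fun i => h.st (cons k τ i)) = cons (h.st k) fun i => h.st (τ i) :=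
        cons_succ_comp h.st k τ
      rw [e]
      exact h1 _ ⟨k, rfl⟩
    · rintro h1 X ⟨k, rfl⟩
      have h2 := h1 k
      rw [Fm.sub_upS_instS, ← hp] at h2
      have e : (fun i => h.st (cons k τ i)) = cons (h.st k) fun i => h.st (τ i) :=
        cons_succ_comp h.st k τ
      rw [e] at h2
      exact h2

theorem models (h : Hen T D) : Models h.str T := by
  intro p hp v V hV
  choose σ hσ using fun i => h.el_surj (v i)
  choose τ hτ using hV
  have e1 : v = fun i => h.el (σ i) := funext fun i => (hσ i).symm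
  have e2 : V = fun i => h.st (τ i) := funext fun i => (hτ i).symm
  rw [e1, e2, h.truth]
  exact h.cl [] _ (by simp) (.ax σ τ hp)

end Hen

/-- COMPLETENESS THEOREM, with a countable model. -/
theorem complete {T : Set Fm} {p : Fm} (h : ¬ Prf T [] p) :
    ∃ A : L2Str, Countable A.M ∧ A.S.Countable ∧ Models A T ∧
      ∃ (v : ℕ → A.M) (V : ℕ → Set A.M), (∀ i, V i ∈ A.S) ∧ ¬ Sat A v V p := by
  obtain ⟨D, hD, hp⟩ := exists_Hen h
  refine ⟨hD.str, ?_, Set.countable_range _, hD.models, fun i => hD.el (.var i),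
    fun i => hD.st i, fun i => ⟨i, rfl⟩, ?_⟩
  · exact Quotient.countable
  · intro h1
    have h2 := (hD.truth p .var id).1 h1
    rw [Fm.sub_var] at h2
    exact hD.not_neg h2 hp

/-- Provability is truth in all models. -/
theorem prf_iff {T : Set Fm} {p : Fm} : Prf T [] p ↔ ∀ A : L2Str, Models A T → Valid A p := by
  constructor
  · intro h A hA v V hV
    exact sound h A hA v V hV (by simp)
  · intro h
    by_contra h1
    obtain ⟨A, -, -, hA, v, V, hV, hp⟩ := complete h1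
    exact hp (h A hA v V hV)

end Pool.Agent.RT
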