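import Pool.Agent.Work.MP_dc6514_lc.R.GFree

/-!
# Weakening and substitution of derivations (block G)
-/

namespace Pool.Agent.RT

namespace Prf

variable {T : Set Fm}

theorem weak {G : List Fm} {p : Fm} (h : Prf T G p) : ∀ {D : List Fm}, G ⊆ D → Prf T D p := by
  induction h with
  | ax σ τ h => intro D _; exact .ax σ τ h
  | hyp h => intro D hD; exact .hyp (hD h)
  | impI _ ih => intro D hD; exact .impI (ih (List.cons_subset_cons _ hD))
  | impE _ _ ih ih' => intro D hD; exact .impE (ih hD) (ih' hD)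
  | raa _ ih => intro D hD; exact .raa (ih (List.cons_subset_cons _ hD))
  | allNI _ ih => intro D hD; exact .allNI (ih (List.map_subset _ hD))
  | allNE t _ ih => intro D hD; exact .allNE t (ih hD)
  | allSI _ ih => intro D hD; exact .allSI (ih (List.map_subset _ hD))
  | allSE k _ ih => intro D hD; exact .allSE k (ih hD)
  | refl t => intro D _; exact .refl t
  | rew p _ _ ih ih' => intro D hD; exact .rew p (ih hD) (ih' hD)

theorem cut {G : List Fm} {p q : Fm} (h : Prf T G p) (h' : Prf T (p :: G) q) : Prf T G q :=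
  .impE (.impI h') h

theorem efq {G : List Fm} {p : Fm} (h : Prf T G .bot) : Prf T G p :=
  .raa (h.weak (List.subset_cons_self _ _))

/-- Derivations are closed under substitution. -/
theorem subst {G : List Fm} {p : Fm} (h : Prf T G p) : ∀ (σ : ℕ → Tm) (τ : ℕ → ℕ),
    Prf T (G.map fun q => q.sub σ τ) (p.sub σ τ) := by
  induction h with
  | @ax G p σ τ h =>
    intro σ' τ'
    rw [Fm.sub_sub]
    exact .ax _ _ h
  | hyp h => intro σ τ; exact .hyp (List.mem_map_of_mem h)
  | impI _ ih => intro σ τ; exact .impI (ih σ τ)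
  | impE _ _ ih ih' => intro σ τ; exact .impE (ih σ τ) (ih' σ τ)
  | raa _ ih => intro σ τ; exact .raa (ih σ τ)
  | @allNI G p _ ih =>
    intro σ τ
    refine .allNI ?_
    have h1 := ih (upT σ) τ
    rw [List.map_map] at h1 ⊢
    have h2 : (fun q : Fm => q.sub (upT σ) τ) ∘ Fm.shN = Fm.shN ∘ fun q : Fm => q.sub σ τ := by
      funext q
      exact (Fm.shN_sub q σ τ).symm
    rw [h2] at h1
    exact h1
  | @allNE G p t _ ih =>
    intro σ τ
    rw [Fm.instN_sub]
    exact .allNE _ (ih σ τ)
  | @allSI G p _ ih =>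
    intro σ τ
    refine .allSI ?_
    have h1 := ih σ (upS τ)
    rw [List.map_map] at h1 ⊢
    have h2 : (fun q : Fm => q.sub σ (upS τ)) ∘ Fm.shS = Fm.shS ∘ fun q : Fm => q.sub σ τ := by
      funext q
      exact (Fm.shS_sub q σ τ).symm
    rw [h2] at h1
    exact h1
  | @allSE G p k _ ih =>
    intro σ τ
    rw [Fm.instS_sub]
    exact .allSE _ (ih σ τ)
  | refl t => intro σ τ; exact .refl _
  | @rew G s t p _ _ ih ih' =>
    intro σ τ
    rw [Fm.instN_sub]
    refine .rew _ (ih σ τ) ?_
    rw [← Fm.instN_sub]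
    exact ih' σ τ

/-- The witness lemma for number quantifiers: a counterexample with a fresh name may be added. -/
theorem witN {G : List Fm} {p : Fm} {N : ℕ} (hG : ∀ q ∈ G, q.fN ≤ N) (hp : (Fm.allN p).fN ≤ N)
    (h : Prf T ((p.instN (.var N)).neg :: G) .bot) : Prf T G (.allN p) := by
  refine .allNI (.raa ?_)
  have h1 := h.subst (backN N) id
  rw [List.map_cons] at h1
  have h2 : ((p.instN (.var N)).neg).sub (backN N) id = p.neg := by
    show Fm.imp ((p.instN (.var N)).sub (backN N) id) .bot = _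
    rw [Fm.instN_backN p hp]
    rfl
  rw [h2, List.map_congr_left fun q hq => Fm.sub_backN q (hG q hq)] at h1
  exact h1

theorem witS {G : List Fm} {p : Fm} {N : ℕ} (hG : ∀ q ∈ G, q.fS ≤ N) (hp : (Fm.allS p).fS ≤ N)
    (h : Prf T ((p.instS N).neg :: G) .bot) : Prf T G (.allS p) := by
  refine .allSI (.raa ?_)
  have h1 := h.subst .var (backS N)
  rw [List.map_cons] at h1
  have h2 : ((p.instS N).neg).sub .var (backS N) = p.neg := by
    show Fm.imp ((p.instS N).sub .var (backS N)) .bot = _
    rw [Fm.instS_backS p hp]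
    rfl
  rw [h2, List.map_congr_left fun q hq => Fm.sub_backS q (hG q hq)] at h1
  exact h1

end Prf

end Pool.Agent.RT
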