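import Pool.Agent.Work.MP_dc6514_lc.R.Syn

/-!
# Substitution algebra (block G)
-/

namespace Pool.Agent.RT

theorem cons_succ_comp {α β : Type*} (f : α → β) (a : α) (v : ℕ → α) :
    (fun i => f (cons a v i)) = cons (f a) (fun i => f (v i)) := by
  funext i; cases i <;> rfl

theorem Tm.sub_sub (t : Tm) (σ σ' : ℕ → Tm) :
    (t.sub σ).sub σ' = t.sub (fun i => (σ i).sub σ') := by
  induction t with
  | var i => rfl
  | zero => rfl
  | one => rfl
  | add s t hs ht => simp only [Tm.sub, hs, ht]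
  | mul s t hs ht => simp only [Tm.sub, hs, ht]

theorem Tm.sub_var (t : Tm) : t.sub .var = t := by
  induction t with
  | var i => rfl
  | zero => rfl
  | one => rfl
  | add s t hs ht => simp only [Tm.sub, hs, ht]
  | mul s t hs ht => simp only [Tm.sub, hs, ht]

theorem upT_var : upT .var = .var := by
  funext i; cases i <;> rfl

theorem upS_id : upS id = id := by
  funext i; cases i <;> rfl

theorem upT_comp (σ σ' : ℕ → Tm) :
    (fun i => (upT σ i).sub (upT σ')) = upT (fun i => (σ i).sub σ') := by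
  funext i
  cases i with
  | zero => rfl
  | succ i =>
    simp only [upT, cons, Tm.sub_sub]
    rfl

theorem upS_comp (τ τ' : ℕ → ℕ) :
    (fun i => upS τ' (upS τ i)) = upS (fun i => τ' (τ i)) := by
  funext i; cases i <;> rfl

theorem Fm.sub_sub (p : Fm) : ∀ (σ σ' : ℕ → Tm) (τ τ' : ℕ → ℕ),
    (p.sub σ τ).sub σ' τ' = p.sub (fun i => (σ i).sub σ') (fun i => τ' (τ i)) := by
  induction p with
  | eq s t => intro σ σ' τ τ'; simp only [Fm.sub, Tm.sub_sub]
  | lt s t => intro σ σ' τ τ'; simp only [Fm.sub, Tm.sub_sub]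
  | mem t X => intro σ σ' τ τ'; simp only [Fm.sub, Tm.sub_sub]
  | bot => intro σ σ' τ τ'; rfl
  | imp p q hp hq => intro σ σ' τ τ'; simp only [Fm.sub, hp, hq]
  | allN p hp => intro σ σ' τ τ'; simp only [Fm.sub, hp, upT_comp]
  | allS p hp => intro σ σ' τ τ'; simp only [Fm.sub, hp, upS_comp]

theorem Fm.sub_var (p : Fm) : p.sub .var id = p := by
  induction p with
  | eq s t => simp only [Fm.sub, Tm.sub_var]
  | lt s t => simp only [Fm.sub, Tm.sub_var]
  | mem t X => simp only [Fm.sub, Tm.sub_var, id]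
  | bot => rfl
  | imp p q hp hq => simp only [Fm.sub, hp, hq]
  | allN p hp => simp only [Fm.sub, hp, upT_var]
  | allS p hp => simp only [Fm.sub, hp, upS_id]

/-- Instances after a lifted substitution. -/
theorem Fm.sub_upT_instN (p : Fm) (σ : ℕ → Tm) (τ : ℕ → ℕ) (t : Tm) :
    (p.sub (upT σ) τ).instN t = p.sub (cons t σ) τ := by
  unfold Fm.instN
  rw [Fm.sub_sub]
  congr 1
  funext i
  cases i with
  | zero => rfl
  | succ i =>
    simp only [upT, cons, Tm.sub_sub]
    exact Tm.sub_var _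

theorem Fm.sub_upS_instS (p : Fm) (σ : ℕ → Tm) (τ : ℕ → ℕ) (k : ℕ) :
    (p.sub σ (upS τ)).instS k = p.sub σ (cons k τ) := by
  unfold Fm.instS
  rw [Fm.sub_sub]
  congr 1
  · funext i
    exact Tm.sub_var _
  · funext i; cases i <;> rfl

/-- Substitution of an instance. -/
theorem Fm.instN_sub (p : Fm) (σ : ℕ → Tm) (τ : ℕ → ℕ) (t : Tm) :
    (p.instN t).sub σ τ = (p.sub (upT σ) τ).instN (t.sub σ) := by
  rw [Fm.sub_upT_instN]
  unfold Fm.instN
  rw [Fm.sub_sub]
  congr 1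
  funext i; cases i <;> rfl

theorem Fm.instS_sub (p : Fm) (σ : ℕ → Tm) (τ : ℕ → ℕ) (k : ℕ) :
    (p.instS k).sub σ τ = (p.sub σ (upS τ)).instS (τ k) := by
  rw [Fm.sub_upS_instS]
  unfold Fm.instS
  rw [Fm.sub_sub]
  congr 1
  funext i; cases i <;> rfl

theorem Fm.shN_sub (p : Fm) (σ : ℕ → Tm) (τ : ℕ → ℕ) :
    (p.sub σ τ).shN = p.shN.sub (upT σ) τ := by
  unfold Fm.shN
  rw [Fm.sub_sub, Fm.sub_sub]
  rfl

theorem Fm.shS_sub (p : Fm) (σ : ℕ → Tm) (τ : ℕ → ℕ) :
    (p.sub σ τ).shS = p.shS.sub σ (upS τ) := by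
  unfold Fm.shS
  rw [Fm.sub_sub, Fm.sub_sub]
  congr 1
  funext i
  exact Tm.sub_var _

end Pool.Agent.RT
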