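import Mathlib

/-!
# The language `L_2` of second-order arithmetic: syntax, Henkin semantics, natural deduction

Board `modrt` (RT^2_2 over BΣ_2), block G.  Variables are de Bruijn indices: in a formula the number
variable `var i` (set variable `i`) that stands under `a` number quantifiers (`b` set quantifiers)
and has `i < a` (`i < b`) is bound by one of them, otherwise it is the free variable `i - a` (`i - b`).
-/

namespace Pool.Agent.RT

/-- Number terms of `L_2`. -/
inductive Tm : Type
  | var (i : ℕ)
  | zero
  | one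
  | add (s t : Tm)
  | mul (s t : Tm)
  deriving DecidableEq, Countable

/-- Formulas of `L_2` (number quantifier `allN`, set quantifier `allS`). -/
inductive Fm : Type
  | eq (s t : Tm)
  | lt (s t : Tm)
  | mem (t : Tm) (X : ℕ)
  | bot
  | imp (p q : Fm)
  | allN (p : Fm)
  | allS (p : Fm)
  deriving DecidableEq, Countable

/-- The sequence `a, v 0, v 1, …`. -/
def cons {α : Type*} (a : α) (v : ℕ → α) : ℕ → α
  | 0 => a
  | i + 1 => v i

/-- Substitution in terms. -/
def Tm.sub (σ : ℕ → Tm) : Tm → Tm
  | .var i => σ i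
  | .zero => .zero
  | .one => .one
  | .add s t => .add (s.sub σ) (t.sub σ)
  | .mul s t => .mul (s.sub σ) (t.sub σ)

/-- A substitution of terms, lifted under a number quantifier. -/
def upT (σ : ℕ → Tm) : ℕ → Tm := cons (.var 0) fun i => (σ i).sub fun j => .var (j + 1)

/-- A renaming of set variables, lifted under a set quantifier. -/
def upS (τ : ℕ → ℕ) : ℕ → ℕ := cons 0 fun i => τ i + 1

namespace Fm

/-- Simultaneous (capture avoiding) substitution: number variables by terms, set variables by set
variables. -/
def sub : (ℕ → Tm) → (ℕ → ℕ) → Fm → Fm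
  | σ, _, eq s t => eq (s.sub σ) (t.sub σ)
  | σ, _, lt s t => lt (s.sub σ) (t.sub σ)
  | σ, τ, mem t X => mem (t.sub σ) (τ X)
  | _, _, bot => bot
  | σ, τ, imp p q => imp (p.sub σ τ) (q.sub σ τ)
  | σ, τ, allN p => allN (p.sub (upT σ) τ)
  | σ, τ, allS p => allS (p.sub σ (upS τ))

/-- Rename the number variables `x_i` to `x_{i+1}`. -/
def shN (p : Fm) : Fm := p.sub (fun i => .var (i + 1)) id

/-- Rename the set variables `X_i` to `X_{i+1}`. -/
def shS (p : Fm) : Fm := p.sub .var Nat.succ

/-- Replace the number variable `x_0` by `t` and `x_{i+1}` by `x_i`. -/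
def instN (p : Fm) (t : Tm) : Fm := p.sub (cons t .var) id

/-- Replace the set variable `X_0` by `X_k` and `X_{i+1}` by `X_i`. -/
def instS (p : Fm) (k : ℕ) : Fm := p.sub .var (cons k id)

/-- Negation. -/
def neg (p : Fm) : Fm := imp p bot

/-- Conjunction. -/
def and (p q : Fm) : Fm := neg (imp p (neg q))

/-- Disjunction. -/
def or (p q : Fm) : Fm := imp (neg p) q

/-- Equivalence. -/
def iff (p q : Fm) : Fm := and (imp p q) (imp q p)

/-- Existential number quantifier. -/
def exN (p : Fm) : Fm := neg (allN (neg p))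

/-- Existential set quantifier. -/
def exS (p : Fm) : Fm := neg (allS (neg p))

end Fm

/-- Structures for `L_2` (Henkin structures): the sets range over a nonempty family `S` of subsets of
the domain `M` of the numbers. -/
structure L2Str where
  M : Type
  zero : M
  one : M
  add : M → M → M
  mul : M → M → M
  lt : M → M → Prop
  S : Set (Set M)
  ne : S.Nonempty

/-- Value of a term. -/
def Tm.val (A : L2Str) (v : ℕ → A.M) : Tm → A.M
  | .var i => v i
  | .zero => A.zero
  | .one => A.one
  | .add s t => A.add (s.val A v) (t.val A v)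
  | .mul s t => A.mul (s.val A v) (t.val A v)

/-- Satisfaction of a formula. -/
def Sat (A : L2Str) : (ℕ → A.M) → (ℕ → Set A.M) → Fm → Prop
  | v, _, .eq s t => s.val A v = t.val A v
  | v, _, .lt s t => A.lt (s.val A v) (t.val A v)
  | v, V, .mem t X => t.val A v ∈ V X
  | _, _, .bot => False
  | v, V, .imp p q => Sat A v V p → Sat A v V q
  | v, V, .allN p => ∀ a : A.M, Sat A (cons a v) V p
  | v, V, .allS p => ∀ X ∈ A.S, Sat A v (cons X V) p

/-- A formula is valid in a structure if it holds under all assignments (that is, its universal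
closure is true). -/
def Valid (A : L2Str) (p : Fm) : Prop :=
  ∀ (v : ℕ → A.M) (V : ℕ → Set A.M), (∀ i, V i ∈ A.S) → Sat A v V p

/-- `A` is a model of `T`: all formulas of `T` are valid in `A`. -/
def Models (A : L2Str) (T : Set Fm) : Prop := ∀ p ∈ T, Valid A p

/-- Natural deduction for `L_2` with axioms `T`: `Prf T G p` says that `p` is derivable from the
axioms `T` (of which all substitution instances may be used) and the assumptions in the list `G`. -/
inductive Prf (T : Set Fm) : List Fm → Fm → Prop
  | ax {G : List Fm} {p : Fm} (σ : ℕ → Tm) (τ : ℕ → ℕ) (h : p ∈ T) : Prf T G (p.sub σ τ)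
  | hyp {G : List Fm} {p : Fm} (h : p ∈ G) : Prf T G p
  | impI {G : List Fm} {p q : Fm} (h : Prf T (p :: G) q) : Prf T G (.imp p q)
  | impE {G : List Fm} {p q : Fm} (h : Prf T G (.imp p q)) (h' : Prf T G p) : Prf T G q
  | raa {G : List Fm} {p : Fm} (h : Prf T (p.neg :: G) .bot) : Prf T G p
  | allNI {G : List Fm} {p : Fm} (h : Prf T (G.map Fm.shN) p) : Prf T G (.allN p)
  | allNE {G : List Fm} {p : Fm} (t : Tm) (h : Prf T G (.allN p)) : Prf T G (p.instN t)
  | allSI {G : List Fm} {p : Fm} (h : Prf T (G.map Fm.shS) p) : Prf T G (.allS p)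
  | allSE {G : List Fm} {p : Fm} (k : ℕ) (h : Prf T G (.allS p)) : Prf T G (p.instS k)
  | refl {G : List Fm} (t : Tm) : Prf T G (.eq t t)
  | rew {G : List Fm} {s t : Tm} (p : Fm) (h : Prf T G (.eq s t)) (h' : Prf T G (p.instN s)) :
      Prf T G (p.instN t)

end Pool.Agent.RT
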